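import Pool.Agent.Helper50.VSI.Large

/-! The primes up to `2 N` with small regulator or large class number are fewer than `N / (log N) ^ K`. -/

set_option autoImplicit false

open Finset Filter

namespace Pool.Agent.Helper50.CL

open Pool.Agent.Helper50.VSI

theorem ev_log (a : ℕ) (c : ℝ) (hc : 0 < c) : ∀ᶠ N : ℕ in atTop, Real.log N ^ a ≤ c * √(N : ℝ) := by
  have h := (isLittleO_log_rpow_rpow_atTop (s := 1 / 2) ((a : ℕ) : ℝ) (by norm_num)).bound hc
  filter_upwards [(tendsto_natCast_atTop_atTop (R := ℝ)).eventually h] with X hX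
  have hl : 0 ≤ Real.log X := Real.log_natCast_nonneg X
  rw [Real.rpow_natCast, Real.norm_eq_abs, Real.norm_eq_abs, abs_of_nonneg (by positivity),
    abs_of_nonneg (by positivity), ← Real.sqrt_eq_rpow] at hX
  exact hX

theorem ev_loglog (c : ℝ) (hc : 0 < c) : ∀ᶠ N : ℕ in atTop,
    c * Real.log (Real.log N) ≤ Real.log N := by
  have h := (Real.isLittleO_log_id_atTop.bound (c := 1 / c) (by positivity))
  have h2 := (Real.tendsto_log_atTop.comp (tendsto_natCast_atTop_atTop (R := ℝ))).eventually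
    (h.and (eventually_ge_atTop 1))
  filter_upwards [h2] with N hN
  obtain ⟨h3, h4⟩ := hN
  simp only [Function.comp_apply, id] at h3 h4
  rw [Real.norm_eq_abs, Real.norm_eq_abs, abs_of_nonneg (Real.log_nonneg h4),
    abs_of_nonneg (by linarith)] at h3
  calc c * Real.log (Real.log N) ≤ c * (1 / c * Real.log N) := by gcongr
    _ = Real.log N := by field_simp

/-- the dyadic sum -/
theorem dyad (P : ℕ → Prop) (D E : ℝ) (N y0 : ℕ)
    (hP : ∀ y : ℕ, y0 ≤ y → y ≤ 2 * N → ∀ S : Finset ℕ, (∀ p ∈ S, P p ∧ y < p ∧ p ≤ y + y) →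
      (S.card : ℝ) ≤ D + E * y) (hpos : ∀ p, P p → 0 < p) (hE : 0 ≤ E) :
    ∀ j : ℕ, 2 ^ j * y0 ≤ 4 * N → ∀ S : Finset ℕ, (∀ p ∈ S, P p ∧ p ≤ 2 ^ j * y0) →
      (S.card : ℝ) ≤ y0 + j * D + E * (2 ^ j * y0 : ℕ) := by
  intro j
  induction j with
  | zero =>
    intro _ S hS
    have h1 : S ⊆ Icc 1 y0 := fun p hp => by
      have h2 := hS p hp
      rw [mem_Icc]
      refine ⟨hpos p h2.1, by simpa using h2.2⟩
    have h2 : (S.card : ℝ) ≤ y0 := by
      have := card_le_card h1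
      rw [Nat.card_Icc, Nat.add_sub_cancel] at this
      exact_mod_cast this
    have h3 : 0 ≤ E * ((2 ^ 0 * y0 : ℕ) : ℝ) := by positivity
    simp only [Nat.cast_zero, zero_mul, add_zero]
    linarith
  | succ j ih =>
    intro hj S hS
    classical
    have hj' : 2 * (2 ^ j * y0) ≤ 4 * N := by
      rw [← mul_assoc, ← pow_succ']
      exact hj
    have h1 := ih (by omega) (S.filter (fun p => p ≤ 2 ^ j * y0)) (fun p hp => by
      rw [mem_filter] at hp
      exact ⟨(hS p hp.1).1, hp.2⟩)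
    have h2 := hP (2 ^ j * y0) (Nat.le_mul_of_pos_left _ (by positivity)) (by omega)
      (S.filter (fun p => ¬ p ≤ 2 ^ j * y0)) (fun p hp => by
        rw [mem_filter] at hp
        refine ⟨(hS p hp.1).1, by omega, ?_⟩
        have := (hS p hp.1).2
        rw [pow_succ'] at this
        linarith)
    have h3 : (S.card : ℝ) = (S.filter (fun p => p ≤ 2 ^ j * y0)).card +
        (S.filter (fun p => ¬ p ≤ 2 ^ j * y0)).card := by
      exact_mod_cast (card_filter_add_card_filter_not _).symm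
    rw [h3]
    have h4 : ((2 ^ (j + 1) * y0 : ℕ) : ℝ) = 2 * ((2 ^ j * y0 : ℕ) : ℝ) := by
      push_cast
      ring
    rw [h4]
    push_cast at h1 h2 ⊢
    linarith

/-- The primes `p ≤ 2 N` for which the regulator is less than `c √(log N / log log N) log p` or the class number
larger than `√p / (c √(log N / log log N))` are at most `N / (log N) ^ K`. -/
theorem thin (K : ℕ) : ∃ c : ℝ, 0 < c ∧ ∀ᶠ N : ℕ in atTop, ∀ S : Finset ℕ,
    (∀ p ∈ S, p.Prime ∧ p ≤ 2 * N ∧ ¬ Large (c * √(Real.log N / Real.log (Real.log N))) p) →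
    (S.card : ℝ) ≤ N / Real.log N ^ K := by
  obtain ⟨C, hC1, hC⟩ := exceptions_card
  obtain ⟨k, hk⟩ : ∃ k : ℕ, k = K + 12 := ⟨_, rfl⟩
  have hk0 : (1 : ℝ) ≤ k := by
    rw [hk]
    push_cast
    have : (0 : ℝ) ≤ K := Nat.cast_nonneg _
    linarith
  have hC0 : 0 < C := by linarith
  refine ⟨√(1 / (64 * k)) / C, by positivity, ?_⟩
  have e1 := ev_loglog (64 * k * C) (by positivity)
  have e2 := (Real.tendsto_log_atTop.comp (Real.tendsto_log_atTop.comp
    (tendsto_natCast_atTop_atTop (R := ℝ)))).eventually (eventually_ge_atTop C)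
  have e3 := (Real.tendsto_log_atTop.comp (tendsto_natCast_atTop_atTop (R := ℝ))).eventually
    (eventually_ge_atTop (128 * C))
  have e4 := ev_log (11 + 8 * k + K) (1 / (4 + 128 * C)) (by positivity)
  filter_upwards [e1, e2, e3, e4, eventually_ge_atTop 16] with N b1 b2 b3 b4 b5
  simp only [Function.comp_apply] at b2 b3
  intro S hS
  obtain ⟨L, hL⟩ : ∃ L : ℝ, L = Real.log N := ⟨_, rfl⟩
  obtain ⟨l, hl⟩ : ∃ l : ℝ, l = Real.log L := ⟨_, rfl⟩
  rw [← hL] at b1 b2 b3 b4 hS ⊢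
  rw [← hl] at b1 b2 hS
  have hN0 : (0 : ℝ) < N := by
    have : 0 < N := by omega
    exact_mod_cast this
  have hN4 : (16 : ℝ) ≤ N := by exact_mod_cast b5
  have hl0 : 0 < l := by linarith
  have hL0 : 0 < L := by linarith
  have hL1 : 1 ≤ L := by linarith
  obtain ⟨t, ht⟩ : ∃ t : ℝ, t = L / (32 * k * l) := ⟨_, rfl⟩
  have ht1 : 2 * C ≤ t := by
    rw [ht, le_div_iff₀ (by positivity)]
    linarith
  obtain ⟨m, hm⟩ : ∃ m : ℕ, m = ⌊t⌋₊ := ⟨_, rfl⟩
  have hmt : (m : ℝ) ≤ t := by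
    rw [hm]
    exact Nat.floor_le (by linarith)
  have hmt2 : t / 2 ≤ m := by
    have h1 := Nat.lt_floor_add_one t
    rw [← hm] at h1
    have h2 : (1 : ℕ) ≤ m := by
      rw [hm]
      exact Nat.le_floor (by push_cast; linarith)
    have h3 : (1 : ℝ) ≤ m := by exact_mod_cast h2
    linarith
  have hCm : C ≤ m := by linarith
  have hm0 : (0 : ℝ) < m := by linarith
  have hmL : (m : ℝ) * (32 * k * l) ≤ L := by
    have h1 : t * (32 * k * l) = L := by
      rw [ht]
      field_simp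
    rw [← h1]
    gcongr
  have hmL2 : L ≤ m * (64 * k * l) := by
    have h1 : t * (32 * k * l) = L := by
      rw [ht]
      field_simp
    rw [← h1]
    have : t * (32 * k * l) ≤ (2 * m) * (32 * k * l) := by
      gcongr
      linarith
    linarith
  have hmL3 : (m : ℝ) ≤ L := by
    refine le_trans ?_ hmL
    have h1 : (1 : ℝ) ≤ 32 * k * l := by nlinarith
    nlinarith
  have hCmL : C * m ≤ L / 2 := by
    have h1 : C * m ≤ l * m := by gcongr
    have h2 : l * m * 2 ≤ m * (32 * k * l) := by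
      have : (m : ℝ) * (32 * k * l) = l * m * (32 * k) := by ring
      rw [this]
      have h3 : (2 : ℝ) ≤ 32 * k := by linarith
      gcongr
    linarith
  -- the exceptions
  have hs : √(1 / (64 * k)) / C * √(L / l) ≤ √m / C := by
    rw [div_mul_eq_mul_div, ← Real.sqrt_mul (by positivity)]
    gcongr
    rw [div_mul_div_comm, one_mul, div_le_iff₀ (by positivity)]
    linarith
  have hs0 : 0 < √(1 / (64 * k)) / C * √(L / l) := by positivity
  obtain ⟨P, hP⟩ : ∃ P : ℕ → Prop, P = fun p => p.Prime ∧ ¬ Large (√m / C) p := ⟨_, rfl⟩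
  have hSP : ∀ p ∈ S, P p ∧ p ≤ 2 * N := by
    intro p hp
    obtain ⟨h1, h2, h3⟩ := hS p hp
    rw [hP]
    exact ⟨⟨h1, fun h4 => h3 (large_mono h1 hs0 hs h4)⟩, h2⟩
  obtain ⟨D, hD⟩ : ∃ D : ℝ, D = 16 * C * L ^ (11 + 8 * k) := ⟨_, rfl⟩
  obtain ⟨E, hE⟩ : ∃ E : ℝ, E = 16 * C / L ^ (K + 1) := ⟨_, rfl⟩
  have hblock : ∀ y : ℕ, Nat.sqrt N + 1 ≤ y → y ≤ 2 * N → ∀ S : Finset ℕ,
      (∀ p ∈ S, P p ∧ y < p ∧ p ≤ y + y) → (S.card : ℝ) ≤ D + E * y := by
    intro y hy1 hy2 S hS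
    have hyN : (N : ℝ) ≤ (y : ℝ) ^ 2 := by
      have h1 := Nat.lt_succ_sqrt N
      have h2 : N ≤ y ^ 2 := by
        rw [sq]
        exact h1.le.trans (Nat.mul_le_mul hy1 hy1)
      exact_mod_cast h2
    have hy0 : (0 : ℝ) < y := by
      have : 0 < y := by omega
      exact_mod_cast this
    have hy2' : (y : ℝ) ≤ 2 * N := by exact_mod_cast hy2
    have hly1 : L / 2 ≤ Real.log y := by
      have h1 := Real.log_le_log hN0 hyN
      rw [Real.log_pow] at h1
      push_cast at h1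
      rw [← hL] at h1
      linarith
    have hly2 : Real.log y ≤ 2 * L := by
      have h1 : (y : ℝ) ≤ (N : ℝ) ^ 2 := by nlinarith
      have h2 := Real.log_le_log hy0 h1
      rw [Real.log_pow] at h2
      push_cast at h2
      rw [← hL] at h2
      exact h2
    have key := hC m y y S hCm (by linarith) le_rfl (fun p hp => by
      obtain ⟨h1, h2, h3⟩ := hS p hp
      rw [hP] at h1
      exact ⟨h1.1, h2, h3, h1.2⟩)
    have g1 : (y : ℝ) ^ (1 / (16 * (m : ℝ))) ≤ L ^ (8 * k) := by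
      rw [Real.rpow_def_of_pos hy0, ← Real.exp_log hL0, ← Real.exp_nat_mul]
      apply Real.exp_le_exp.2
      rw [← hl, mul_one_div, div_le_iff₀ (by positivity)]
      push_cast
      nlinarith
    have g2 : (y : ℝ) ^ (-(1 / (16 * (m : ℝ)))) ≤ (L ^ k)⁻¹ := by
      rw [Real.rpow_def_of_pos hy0, ← Real.exp_log hL0, ← Real.exp_nat_mul, ← Real.exp_neg]
      apply Real.exp_le_exp.2
      rw [← hl, mul_neg, neg_le_neg_iff, mul_one_div, le_div_iff₀ (by positivity)]
      nlinarith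
    have g3 : C * (m : ℝ) ^ 7 * Real.log y ^ 4 ≤ 16 * C * L ^ 11 := by
      have h0 : 0 ≤ Real.log y := by linarith
      calc C * (m : ℝ) ^ 7 * Real.log y ^ 4 ≤ C * L ^ 7 * (2 * L) ^ 4 := by gcongr
        _ = 16 * C * L ^ 11 := by ring
    calc (S.card : ℝ) ≤ _ := key
      _ ≤ 16 * C * L ^ 11 * (L ^ (8 * k) + y * (L ^ k)⁻¹) := by
          gcongr
      _ = D + E * y := by
          have h1 : L ^ k = L ^ (K + 1) * L ^ 11 := by
            rw [← pow_add, hk]
          rw [hD, hE, h1, pow_add]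
          field_simp
          ring
  -- the dyadic sum
  have hj : ∃ j : ℕ, 2 * N ≤ 2 ^ j * (Nat.sqrt N + 1) ∧ 2 ^ j * (Nat.sqrt N + 1) ≤ 4 * N := by
    have hex : ∃ j : ℕ, 2 * N ≤ 2 ^ j * (Nat.sqrt N + 1) :=
      ⟨2 * N, (Nat.lt_two_pow_self (n := 2 * N)).le.trans (Nat.le_mul_of_pos_right _ (by positivity))⟩
    classical
    refine ⟨Nat.find hex, Nat.find_spec hex, ?_⟩
    have hne : Nat.find hex ≠ 0 := by
      intro h0
      have h1 := Nat.find_spec hex
      rw [h0, pow_zero, one_mul] at h1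
      have h2 := Nat.sqrt_le_self N
      omega
    obtain ⟨i, hi⟩ := Nat.exists_eq_succ_of_ne_zero hne
    have h1 := Nat.find_min hex (m := i) (by omega)
    rw [hi, Nat.succ_eq_add_one, pow_succ']
    have : 2 ^ i * (Nat.sqrt N + 1) < 2 * N := not_le.1 h1
    linarith
  obtain ⟨j, hj1, hj2⟩ := hj
  have key := dyad P D E N (Nat.sqrt N + 1) hblock (fun p hp => by
    rw [hP] at hp
    exact hp.1.pos) (by rw [hE]; positivity) j hj2 S (fun p hp => ⟨(hSP p hp).1, (hSP p hp).2.trans hj1⟩)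
  obtain ⟨r, hr⟩ : ∃ r : ℝ, r = √(N : ℝ) := ⟨_, rfl⟩
  have hr2 : r * r = N := by rw [hr]; exact Real.mul_self_sqrt hN0.le
  have hr4 : 4 ≤ r := by
    rw [hr]
    apply Real.le_sqrt_of_sq_le
    linarith
  have hy0r : ((Nat.sqrt N + 1 : ℕ) : ℝ) ≤ 2 * r := by
    have h1 : ((Nat.sqrt N : ℕ) : ℝ) ≤ r := by
      rw [hr]
      apply Real.le_sqrt_of_sq_le
      have := Nat.sqrt_le' N
      exact_mod_cast this
    push_cast
    linarith
  have hy0r2 : r ≤ ((Nat.sqrt N + 1 : ℕ) : ℝ) := by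
    rw [hr]
    apply Real.sqrt_le_iff.2
    refine ⟨by positivity, ?_⟩
    have h1 := Nat.lt_succ_sqrt N
    have h2 : N ≤ (Nat.sqrt N + 1) ^ 2 := by
      rw [sq]
      exact h1.le
    exact_mod_cast h2
  have hj4 : (j : ℝ) ≤ 4 * r := by
    have h1 : (j : ℝ) * r ≤ 4 * r * r := by
      calc (j : ℝ) * r ≤ (2 ^ j : ℕ) * ((Nat.sqrt N + 1 : ℕ) : ℝ) := by
            gcongr
            exact (Nat.lt_two_pow_self (n := j)).le
        _ ≤ ((4 * N : ℕ) : ℝ) := by exact_mod_cast hj2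
        _ = 4 * r * r := by
            push_cast
            rw [← hr2]
            ring
    exact le_of_mul_le_mul_right h1 (by linarith)
  have hjN : ((2 ^ j * (Nat.sqrt N + 1) : ℕ) : ℝ) ≤ 4 * N := by exact_mod_cast hj2
  have hD0 : 0 ≤ D := by rw [hD]; positivity
  have hE0 : 0 ≤ E := by rw [hE]; positivity
  rw [← hr] at b4
  have f1 : (2 * r + 4 * r * D) * (2 * L ^ K) ≤ N := by
    have h1 : (2 * r + 4 * r * D) * (2 * L ^ K) ≤ r * ((4 + 128 * C) * L ^ (11 + 8 * k + K)) := by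
      have h2 : L ^ K ≤ L ^ (11 + 8 * k + K) := pow_le_pow_right₀ hL1 (by omega)
      have h3 : D * L ^ K = 16 * C * L ^ (11 + 8 * k + K) := by
        rw [hD, mul_assoc, ← pow_add]
      calc (2 * r + 4 * r * D) * (2 * L ^ K) = r * (4 * L ^ K + 8 * (D * L ^ K)) := by ring
        _ ≤ r * (4 * L ^ (11 + 8 * k + K) + 8 * (16 * C * L ^ (11 + 8 * k + K))) := by
            rw [h3]
            gcongr
        _ = _ := by ring
    have h4 : (4 + 128 * C) * L ^ (11 + 8 * k + K) ≤ r := by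
      calc (4 + 128 * C) * L ^ (11 + 8 * k + K) ≤ (4 + 128 * C) * (1 / (4 + 128 * C) * r) := by gcongr
        _ = r := by field_simp
    calc _ ≤ _ := h1
      _ ≤ r * r := by gcongr
      _ = N := hr2
  have f2 : (4 * N * E) * (2 * L ^ K) ≤ N := by
    rw [hE, pow_succ]
    have h1 : 4 * (N : ℝ) * (16 * C / (L ^ K * L)) * (2 * L ^ K) = N * (128 * C) / L := by
      field_simp
      ring
    rw [h1, div_le_iff₀ hL0]
    gcongr
  have h5 : (0 : ℝ) < L ^ K := by positivity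
  rw [le_div_iff₀ h5]
  have h6 : (S.card : ℝ) ≤ (2 * r + 4 * r * D) + 4 * N * E := by
    refine key.trans ?_
    have h7 : (j : ℝ) * D ≤ 4 * r * D := mul_le_mul_of_nonneg_right hj4 hD0
    have h8 : E * ((2 ^ j * (Nat.sqrt N + 1) : ℕ) : ℝ) ≤ E * (4 * N) := mul_le_mul_of_nonneg_left hjN hE0
    linarith
  have h7 : (S.card : ℝ) * L ^ K ≤ ((2 * r + 4 * r * D) + 4 * N * E) * L ^ K :=
    mul_le_mul_of_nonneg_right h6 h5.le
  nlinarith

end Pool.Agent.Helper50.CL
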